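import Pool.Agent.Helper99.AB.Stmts
import Pool.Agent.Helper18.MR.BT
import Pool.Agent.Helper18.MR.SEL

/-! MP_1f31dd_nt, project AB, row BP: close pairs of primes (upper bound). -/

set_option autoImplicit false

open Finset

namespace Pool.Agent.Helper99.AB

/-- asymptotics used in BP -/
theorem bp_asy : ∃ x₀ : ℝ, 16 ≤ x₀ ∧ ∀ x : ℝ, x₀ ≤ x →
    1 ≤ Real.log x ∧ 2 ≤ x ^ (1 / 16 : ℝ) ∧ x ^ (1 / 8 : ℝ) * Real.log x ≤ x ^ (1 / 4 : ℝ) ∧
    6 * x ^ (1 / 16 : ℝ) * Real.log x ^ 2 ≤ x := by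
  have h1 := (isLittleO_log_rpow_atTop (r := (1 / 8 : ℝ)) (by norm_num)).bound
    (show (0 : ℝ) < 1 by norm_num)
  have h2 := (isLittleO_log_rpow_atTop (r := (1 / 4 : ℝ)) (by norm_num)).bound
    (show (0 : ℝ) < 1 / 6 by norm_num)
  have h3 := (tendsto_rpow_atTop (y := (1 / 16 : ℝ)) (by norm_num)).eventually_ge_atTop 2
  have h4 := Real.tendsto_log_atTop.eventually_ge_atTop 1
  have h := (((h1.and h2).and h3).and h4).and (Filter.eventually_ge_atTop 16)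
  obtain ⟨x₀, hx⟩ := Filter.eventually_atTop.1 h
  refine ⟨max x₀ 16, le_max_right _ _, fun x hxx => ?_⟩
  obtain ⟨⟨⟨⟨g1, g2⟩, g3⟩, g4⟩, g5⟩ := hx x ((le_max_left _ _).trans hxx)
  have hx0 : (0 : ℝ) < x := by linarith
  have hL : (0 : ℝ) ≤ Real.log x := by linarith
  rw [Real.norm_of_nonneg hL, Real.norm_of_nonneg (Real.rpow_nonneg hx0.le _)] at g1 g2
  refine ⟨g4, g3, ?_, ?_⟩
  · have e : x ^ (1 / 4 : ℝ) = x ^ (1 / 8 : ℝ) * x ^ (1 / 8 : ℝ) := by
      rw [← Real.rpow_add hx0]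
      norm_num
    rw [e]
    exact mul_le_mul_of_nonneg_left (by linarith) (Real.rpow_nonneg hx0.le _)
  · have e : x = x ^ (1 / 16 : ℝ) * (x ^ (1 / 4 : ℝ) * x ^ (1 / 4 : ℝ)) * x ^ (7 / 16 : ℝ) := by
      rw [← Real.rpow_add hx0, ← Real.rpow_add hx0, ← Real.rpow_add hx0]
      norm_num
    have e1 : Real.log x ^ 2 ≤ (1 / 6 * x ^ (1 / 4 : ℝ)) ^ 2 :=
      pow_le_pow_left₀ hL g2 2
    have e2 : (1 : ℝ) ≤ x ^ (7 / 16 : ℝ) := Real.one_le_rpow (by linarith) (by norm_num)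
    have e3 : (0 : ℝ) ≤ x ^ (1 / 16 : ℝ) := Real.rpow_nonneg hx0.le _
    have e4 : (0 : ℝ) ≤ x ^ (1 / 4 : ℝ) := Real.rpow_nonneg hx0.le _
    calc 6 * x ^ (1 / 16 : ℝ) * Real.log x ^ 2 ≤ 6 * x ^ (1 / 16 : ℝ) * (1 / 6 * x ^ (1 / 4 : ℝ)) ^ 2 :=
          mul_le_mul_of_nonneg_left e1 (by positivity)
      _ = (1 / 6) * (x ^ (1 / 16 : ℝ) * (x ^ (1 / 4 : ℝ) * x ^ (1 / 4 : ℝ))) := by ring
      _ ≤ 1 * (x ^ (1 / 16 : ℝ) * (x ^ (1 / 4 : ℝ) * x ^ (1 / 4 : ℝ))) := by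
          apply mul_le_mul_of_nonneg_right (by norm_num) (by positivity)
      _ ≤ x ^ (1 / 16 : ℝ) * (x ^ (1 / 4 : ℝ) * x ^ (1 / 4 : ℝ)) * x ^ (7 / 16 : ℝ) := by
          rw [one_mul]
          exact le_mul_of_one_le_right (by positivity) e2
      _ = x := e.symm

/-- **Row BP.** -/
theorem st_BP : ST_BP := by
  obtain ⟨x₀, hx16, hx₀⟩ := bp_asy
  refine ⟨1000, by norm_num, x₀, ?_⟩
  intro x h hx hh1 hh2
  obtain ⟨hL1, hD2, hA, hB⟩ := hx₀ x hx
  have hxpos : (0 : ℝ) < x := by linarith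
  obtain ⟨L, hL⟩ : ∃ L, L = Real.log x := ⟨_, rfl⟩
  obtain ⟨D, hD⟩ : ∃ D, D = x ^ (1 / 16 : ℝ) := ⟨_, rfl⟩
  have hlogD : Real.log D = L / 16 := by
    rw [hD, Real.log_rpow hxpos, hL]
    ring
  have hDD : D ^ 2 = x ^ (1 / 8 : ℝ) := by
    rw [hD, ← Real.rpow_natCast, ← Real.rpow_mul hxpos.le]
    norm_num
  rw [← hL] at hL1 hA hB ⊢
  rw [← hD] at hD2 hB
  have hLpos : (0 : ℝ) < L := by linarith
  have h1 : (1 : ℝ) ≤ h := by
    refine le_trans ?_ hh1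
    exact Real.one_le_rpow (by linarith) (by norm_num)
  have hD2h : D ^ 2 ≤ h / L := by
    rw [le_div_iff₀ hLpos, hDD]
    exact hA.trans hh1
  have hD2x : D ^ 2 ≤ x / L := hD2h.trans (div_le_div_of_nonneg_right hh2 hLpos.le)
  have hb := Pool.Agent.Helper40.MR.bt_count Pool.Agent.Helper40.MR.st_SEL
  obtain ⟨a, ha⟩ : ∃ a, a = ⌈D⌉₊ := ⟨_, rfl⟩
  have haD : D ≤ a := by
    rw [ha]
    exact Nat.le_ceil D
  have haD1 : (a : ℝ) < D + 1 := by
    rw [ha]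
    exact Nat.ceil_lt_add_one (by linarith)
  obtain ⟨H, hH⟩ : ∃ H, H = ⌊h⌋₊ := ⟨_, rfl⟩
  have hHh : (H : ℝ) ≤ h := by
    rw [hH]
    exact Nat.floor_le (by linarith)
  obtain ⟨X, hX⟩ : ∃ X, X = ⌊x⌋₊ := ⟨_, rfl⟩
  have hXx : (X : ℝ) ≤ x := by
    rw [hX]
    exact Nat.floor_le (by linarith)
  -- the inclusion
  have hsub : (((Icc 1 ⌊2 * x⌋₊) ×ˢ (Icc 1 ⌊2 * x⌋₊)).filter (fun r : ℕ × ℕ => r.1.Prime ∧
      r.2.Prime ∧ r.1 ≤ r.2 ∧ (r.1 : ℝ) ≤ x ∧ (r.2 : ℝ) ≤ r.1 + h)) ⊆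
      ((Icc 1 a).biUnion (fun p => (Icc p (p + H)).image (fun q => (p, q)))) ∪
      (((Ioc a X).filter Nat.Prime).biUnion (fun p =>
        ((Ioc (p - 1) (p + H)).filter Nat.Prime).image (fun q => (p, q)))) := by
    intro r hr
    obtain ⟨_, hp, hq, hpq, hpx, hqh⟩ := mem_filter.1 hr
    have hqH : r.2 ≤ r.1 + H := by
      have : ((r.2 - r.1 : ℕ) : ℝ) ≤ h := by
        rw [Nat.cast_sub hpq]
        linarith
      have h2 := Nat.le_floor this
      rw [← hH] at h2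
      omega
    have hp1 := hp.one_lt
    by_cases hra : r.1 ≤ a
    · apply mem_union_left
      rw [mem_biUnion]
      exact ⟨r.1, mem_Icc.2 ⟨by omega, hra⟩, mem_image.2 ⟨r.2, mem_Icc.2 ⟨hpq, hqH⟩, rfl⟩⟩
    · apply mem_union_right
      rw [mem_biUnion]
      refine ⟨r.1, mem_filter.2 ⟨mem_Ioc.2 ⟨by omega, ?_⟩, hp⟩, mem_image.2 ⟨r.2,
        mem_filter.2 ⟨mem_Ioc.2 ⟨by omega, hqH⟩, hq⟩, rfl⟩⟩
      rw [hX]
      exact Nat.le_floor hpx
  have hcard1 : ((((Icc 1 a).biUnion (fun p => (Icc p (p + H)).image (fun q => (p, q)))).card : ℕ)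
      : ℝ) ≤ a * (H + 1) := by
    have : ((Icc 1 a).biUnion (fun p => (Icc p (p + H)).image (fun q => (p, q)))).card ≤
        a * (H + 1) := by
      refine card_biUnion_le.trans ?_
      calc _ ≤ ∑ p ∈ Icc 1 a, (H + 1) := by
            refine sum_le_sum fun p _ => card_image_le.trans ?_
            rw [Nat.card_Icc]
            omega
        _ = _ := by simp
    exact_mod_cast this
  have hcard2 : (((((Ioc a X).filter Nat.Prime).biUnion (fun p =>
        ((Ioc (p - 1) (p + H)).filter Nat.Prime).image (fun q => (p, q)))).card : ℕ) : ℝ) ≤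
        (17 * x / L) * (33 * h / L) := by
    have hfib : ∀ p ∈ (Ioc a X).filter Nat.Prime,
        ((((Ioc (p - 1) (p + H)).filter Nat.Prime).image (fun q => (p, q))).card : ℝ) ≤
        33 * h / L := by
      intro p hp
      have hpa := (mem_Ioc.1 (mem_filter.1 hp).1).1
      have h2 : ((((Ioc (p - 1) (p + H)).filter Nat.Prime).image (fun q => (p, q))).card : ℝ) ≤
          (((Ioc (p - 1) (p + H)).filter Nat.Prime).card : ℝ) := by
        exact_mod_cast card_image_le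
      refine h2.trans ?_
      have hp1 : a ≤ p - 1 := by omega
      have h3 := hb D (p - 1) (p + H) hD2 (by omega) (haD.trans (by exact_mod_cast hp1))
      refine h3.trans ?_
      have h4 : (((p + H : ℕ) : ℝ) - ((p - 1 : ℕ) : ℝ)) ≤ 2 * h := by
        rw [Nat.cast_sub (by omega)]
        push_cast
        linarith
      have h5 : (((p + H : ℕ) : ℝ) - ((p - 1 : ℕ) : ℝ)) / Real.log D ≤ 32 * h / L := by
        rw [hlogD, div_div_eq_mul_div]
        exact div_le_div_of_nonneg_right (by linarith) hLpos.le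
      have h6 : 33 * h / L = 32 * h / L + h / L := by ring
      rw [h6]
      linarith
    have hP : ((((Ioc a X).filter Nat.Prime).card : ℕ) : ℝ) ≤ 17 * x / L := by
      by_cases haX : a ≤ X
      · have h3 := hb D a X hD2 haX haD
        refine h3.trans ?_
        have h5 : ((X : ℝ) - a) / Real.log D ≤ 16 * x / L := by
          rw [hlogD, div_div_eq_mul_div]
          apply div_le_div_of_nonneg_right _ hLpos.le
          have : (0 : ℝ) ≤ a := Nat.cast_nonneg a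
          linarith
        have h6 : 17 * x / L = 16 * x / L + x / L := by ring
        rw [h6]
        linarith
      · rw [Ioc_eq_empty (by omega)]
        simp
        positivity
    have h7 : (((((Ioc a X).filter Nat.Prime).biUnion (fun p =>
        ((Ioc (p - 1) (p + H)).filter Nat.Prime).image (fun q => (p, q)))).card : ℕ) : ℝ) ≤
        ∑ p ∈ (Ioc a X).filter Nat.Prime,
        ((((Ioc (p - 1) (p + H)).filter Nat.Prime).image (fun q => (p, q))).card : ℝ) := by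
      exact_mod_cast card_biUnion_le
    refine h7.trans ((sum_le_sum hfib).trans ?_)
    rw [sum_const, nsmul_eq_mul]
    exact mul_le_mul_of_nonneg_right hP (by positivity)
  have hcard : ((((Icc 1 ⌊2 * x⌋₊) ×ˢ (Icc 1 ⌊2 * x⌋₊)).filter (fun r : ℕ × ℕ => r.1.Prime ∧
      r.2.Prime ∧ r.1 ≤ r.2 ∧ (r.1 : ℝ) ≤ x ∧ (r.2 : ℝ) ≤ r.1 + h)).card : ℝ) ≤
      a * (H + 1) + (17 * x / L) * (33 * h / L) := by
    have h8 := (card_le_card hsub).trans (card_union_le _ _)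
    have h9 : ((((Icc 1 ⌊2 * x⌋₊) ×ˢ (Icc 1 ⌊2 * x⌋₊)).filter (fun r : ℕ × ℕ => r.1.Prime ∧
      r.2.Prime ∧ r.1 ≤ r.2 ∧ (r.1 : ℝ) ≤ x ∧ (r.2 : ℝ) ≤ r.1 + h)).card : ℝ) ≤
      ((((Icc 1 a).biUnion (fun p => (Icc p (p + H)).image (fun q => (p, q)))).card : ℕ) : ℝ) +
      (((((Ioc a X).filter Nat.Prime).biUnion (fun p =>
        ((Ioc (p - 1) (p + H)).filter Nat.Prime).image (fun q => (p, q)))).card : ℕ) : ℝ) := by
      exact_mod_cast h8
    linarith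
  refine hcard.trans ?_
  have hD0 : (0 : ℝ) < D := by linarith
  have i1 : (a : ℝ) * (H + 1) ≤ x * h / L ^ 2 := by
    have j1 : (a : ℝ) * (H + 1) ≤ (2 * D) * (2 * h) := by
      apply mul_le_mul (by linarith) (by linarith) (by positivity) (by positivity)
    have j2 : (2 * D) * (2 * h) ≤ x * h / L ^ 2 := by
      rw [le_div_iff₀ (by positivity)]
      have : 6 * D * L ^ 2 * h ≤ x * h := mul_le_mul_of_nonneg_right hB (by linarith)
      have j3 : 0 ≤ D * L ^ 2 * h := by positivity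
      nlinarith
    exact j1.trans j2
  have i2 : (17 * x / L) * (33 * h / L) = 561 * (x * h / L ^ 2) := by
    field_simp
    ring
  rw [i2]
  have i3 : 0 ≤ x * h / L ^ 2 := by positivity
  linarith

end Pool.Agent.Helper99.AB
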