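import Pool.Agent.Helper99.AB.Stmts

/-! MP_1f31dd_nt, project AB, row HA: the upper bound. -/

set_option autoImplicit false

open Finset

namespace Pool.Agent.Helper99.AB

/-- asymptotics used in HA -/
theorem ha_asy : ∃ y₀ : ℝ, 65 ≤ y₀ ∧ ∀ y : ℝ, y₀ ≤ y →
    y ^ (1 / 4 : ℝ) * Real.log y ≤ Real.sqrt y / 6 ∧ 1 ≤ Real.log y := by
  have h1 := (isLittleO_log_rpow_atTop (r := (1 / 4 : ℝ)) (by norm_num)).bound
    (show (0 : ℝ) < 1 / 6 by norm_num)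
  have h4 := Real.tendsto_log_atTop.eventually_ge_atTop 1
  have h := (h1.and h4).and (Filter.eventually_ge_atTop 65)
  obtain ⟨x₀, hx⟩ := Filter.eventually_atTop.1 h
  refine ⟨max x₀ 65, le_max_right _ _, fun x hxx => ?_⟩
  obtain ⟨⟨g1, g4⟩, g5⟩ := hx x ((le_max_left _ _).trans hxx)
  have hx0 : (0 : ℝ) < x := by linarith
  have hL : (0 : ℝ) ≤ Real.log x := by linarith
  rw [Real.norm_of_nonneg hL, Real.norm_of_nonneg (Real.rpow_nonneg hx0.le _)] at g1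
  refine ⟨?_, g4⟩
  have e : Real.sqrt x = x ^ (1 / 4 : ℝ) * x ^ (1 / 4 : ℝ) := by
    rw [← Real.rpow_add hx0, Real.sqrt_eq_rpow]
    norm_num
  rw [e]
  have := mul_le_mul_of_nonneg_left g1 (Real.rpow_nonneg hx0.le (1 / 4 : ℝ))
  linarith

/-- the structure of `n` with large `Fn n` -/
theorem ha_pt (n : ℕ) (l : ℝ) (hn : (65 : ℝ) ≤ n) (hl0 : 0 ≤ l) (hl : l ≤ Real.sqrt n / 2)
    (hF : (n : ℝ) + Real.sqrt n - l ≤ (Fn n : ℝ)) :
    ∃ p q : ℕ, p.Prime ∧ q.Prime ∧ p ≤ q ∧ (p : ℝ) ≤ Real.sqrt n ∧ (q : ℝ) ≤ p + 3 * l ∧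
      p * q < n ∧ (n : ℝ) ≤ ((p * q : ℕ) : ℝ) + l := by
  have hn0 : (0 : ℝ) ≤ n := by linarith
  obtain ⟨w, hw⟩ : ∃ w, w = Real.sqrt n := ⟨_, rfl⟩
  have hw2 : w * w = n := by
    rw [hw]
    exact Real.mul_self_sqrt hn0
  have hw0 : 0 ≤ w := by
    rw [hw]
    exact Real.sqrt_nonneg _
  rw [← hw] at hl hF ⊢
  have hw8 : 8 < w := by nlinarith
  have hne : ((Finset.range n).filter (fun m => 1 < m ∧ ¬ m.Prime)).Nonempty := by
    rw [Finset.nonempty_iff_ne_empty]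
    intro h0
    have : Fn n = 0 := by
      unfold Fn
      rw [h0]
      simp
    rw [this] at hF
    push_cast at hF
    linarith
  obtain ⟨m, hm, hFm⟩ := Finset.exists_mem_eq_sup _ hne (fun m => m + m.minFac)
  have hFm' : Fn n = m + m.minFac := hFm
  obtain ⟨hmr, hm1, hmp⟩ := mem_filter.1 hm
  have hmn := mem_range.1 hmr
  have hp : (m.minFac).Prime := Nat.minFac_prime (by omega)
  have hp2 : m.minFac ^ 2 ≤ m := Nat.minFac_sq_le_self (by omega) hmp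
  obtain ⟨p, hpe⟩ : ∃ p, p = m.minFac := ⟨_, rfl⟩
  rw [← hpe] at hp hp2 hFm'
  have hpdvd : p ∣ m := by
    rw [hpe]
    exact Nat.minFac_dvd m
  obtain ⟨q, hq⟩ := hpdvd
  have hmnR : (m : ℝ) + 1 ≤ n := by exact_mod_cast hmn
  have hFR : (Fn n : ℝ) = (m : ℝ) + p := by
    rw [hFm']
    push_cast
    ring
  rw [hFR] at hF
  have hpR : (p : ℝ) ^ 2 ≤ m := by exact_mod_cast hp2
  have hpw : (p : ℝ) ≤ w := by
    by_contra hcon
    push Not at hcon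
    nlinarith
  have hpl : w - l ≤ p := by linarith
  have hq1 : q ≠ 1 := by
    rintro rfl
    rw [mul_one] at hq
    exact hmp (hq ▸ hp)
  have hq0 : q ≠ 0 := by
    rintro rfl
    omega
  have hq2 : 2 ≤ q := by omega
  have hpq : p ≤ q := by
    rw [hpe]
    exact Nat.minFac_le_of_dvd hq2 ⟨p, by rw [hq]; ring⟩
  have hmR : (m : ℝ) = p * q := by
    rw [hq]
    push_cast
    ring
  have hqp : q.Prime := by
    by_contra hcon
    have hr := Nat.minFac_sq_le_self (by omega : 0 < q) hcon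
    have hrp : (q.minFac).Prime := Nat.minFac_prime (by omega)
    have hpr : p ≤ q.minFac := by
      rw [hpe]
      exact Nat.minFac_le_of_dvd hrp.two_le
        ((Nat.minFac_dvd q).trans ⟨p, by rw [hq]; ring⟩)
    have h3 : p ^ 2 ≤ q := (Nat.pow_le_pow_left hpr 2).trans hr
    have h4 : (p : ℝ) ^ 2 ≤ q := by exact_mod_cast h3
    have h5 : w / 2 ≤ p := by linarith
    have h6 : (w / 2) ^ 2 ≤ q := (pow_le_pow_left₀ (by linarith) h5 2).trans h4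
    have h7 : (w / 2) * (w / 2) ^ 2 ≤ p * q := mul_le_mul h5 h6 (by positivity) (by linarith)
    nlinarith
  refine ⟨p, q, hp, hqp, hpq, hpw, ?_, by rw [← hq]; exact hmn, ?_⟩
  · by_contra hcon
    push Not at hcon
    have h5 : w + 2 * l ≤ q := by linarith
    have h7 : (w - l) * (w + 2 * l) ≤ p * q :=
      mul_le_mul hpl h5 (by linarith) (by linarith)
    nlinarith
  · have : ((p * q : ℕ) : ℝ) = m := by
      rw [hq]
    rw [this]
    linarith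

/-- **Row HA.** -/
theorem st_HA (hB : ST_BP) : ST_HA := by
  obtain ⟨C, hC, x₀, hBP⟩ := hB
  obtain ⟨y₀, hy65, hy₀⟩ := ha_asy
  refine ⟨1 + 12 * C, by linarith, ?_⟩
  intro κ hκ hκ1
  have e1 := (tendsto_rpow_atTop (y := (1 / 8 : ℝ)) (by norm_num)).eventually_ge_atTop (1 / (3 * κ))
  have e2 := Filter.eventually_ge_atTop (y₀ / κ ^ 2)
  have e3 := Filter.eventually_ge_atTop (max y₀ (max x₀ 1 ^ 2))
  obtain ⟨N₁, hN₁⟩ := Filter.eventually_atTop.1 ((e1.and e2).and e3)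
  refine ⟨⌈N₁⌉₊, ?_⟩
  intro N hN
  have hN' : N₁ ≤ (N : ℝ) := (Nat.le_ceil N₁).trans (by exact_mod_cast hN)
  obtain ⟨⟨f1, f2⟩, f3⟩ := hN₁ N hN'
  have f4 : y₀ ≤ (N : ℝ) := (le_max_left _ _).trans f3
  have f5 : max x₀ 1 ^ 2 ≤ (N : ℝ) := (le_max_right _ _).trans f3
  have hNpos : (0 : ℝ) < N := by linarith
  obtain ⟨g1, g2⟩ := hy₀ N f4
  obtain ⟨L, hL⟩ : ∃ L, L = Real.log (N : ℝ) := ⟨_, rfl⟩
  obtain ⟨A, hA⟩ : ∃ A, A = (N : ℝ) ^ (1 / 4 : ℝ) := ⟨_, rfl⟩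
  obtain ⟨x, hx⟩ : ∃ x, x = Real.sqrt (N : ℝ) := ⟨_, rfl⟩
  have hA0 : 0 < A := by
    rw [hA]
    positivity
  have hx0 : 0 < x := by
    rw [hx]
    exact Real.sqrt_pos.2 hNpos
  have hA2 : A * A = x := by
    rw [hA, hx, ← Real.rpow_add hNpos, Real.sqrt_eq_rpow]
    norm_num
  have hx2 : x * x = N := by
    rw [hx]
    exact Real.mul_self_sqrt hNpos.le
  have hlogx : Real.log x = L / 2 := by
    rw [hx, Real.log_sqrt hNpos.le, hL]
  have hx4 : x ^ (1 / 4 : ℝ) = (N : ℝ) ^ (1 / 8 : ℝ) := by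
    rw [hx, Real.sqrt_eq_rpow, ← Real.rpow_mul hNpos.le]
    norm_num
  have hA8 : A = (N : ℝ) ^ (1 / 8 : ℝ) * (N : ℝ) ^ (1 / 8 : ℝ) := by
    rw [hA, ← Real.rpow_add hNpos]
    norm_num
  rw [← hL, ← hA, ← hx] at g1
  rw [← hL] at g2
  obtain ⟨l, hl⟩ : ∃ l, l = κ * A * L := ⟨_, rfl⟩
  have hl0 : 0 ≤ l := by
    rw [hl]
    positivity
  have hlx : l ≤ x / 6 := by
    rw [hl]
    calc κ * A * L = κ * (A * L) := by ring
      _ ≤ 1 * (A * L) := mul_le_mul_of_nonneg_right hκ1 (by positivity)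
      _ ≤ _ := by linarith
  have hx0x : x₀ ≤ x := by
    have h1 : max x₀ 1 ≤ x := by
      rw [hx]
      exact Real.le_sqrt_of_sq_le f5
    exact (le_max_left _ _).trans h1
  have hh1 : x ^ (1 / 4 : ℝ) ≤ 3 * l := by
    rw [hx4, hl, hA8]
    have h1 : (0 : ℝ) < (N : ℝ) ^ (1 / 8 : ℝ) := Real.rpow_pos_of_pos hNpos _
    have h2 : 1 ≤ 3 * κ * (N : ℝ) ^ (1 / 8 : ℝ) := by
      rw [div_le_iff₀ (by positivity)] at f1
      linarith
    have h3 : 1 ≤ 3 * κ * (N : ℝ) ^ (1 / 8 : ℝ) * L := by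
      have := mul_le_mul h2 g2 zero_le_one (by positivity)
      linarith
    calc (N : ℝ) ^ (1 / 8 : ℝ) = 1 * (N : ℝ) ^ (1 / 8 : ℝ) := (one_mul _).symm
      _ ≤ (3 * κ * (N : ℝ) ^ (1 / 8 : ℝ) * L) * (N : ℝ) ^ (1 / 8 : ℝ) :=
          mul_le_mul_of_nonneg_right h3 h1.le
      _ = _ := by ring
  have hcount := hBP x (3 * l) hx0x hh1 (by linarith)
  obtain ⟨R, hR⟩ : ∃ R, R = (((Icc 1 ⌊2 * x⌋₊) ×ˢ (Icc 1 ⌊2 * x⌋₊)).filter
    (fun r : ℕ × ℕ => r.1.Prime ∧ r.2.Prime ∧ r.1 ≤ r.2 ∧ (r.1 : ℝ) ≤ x ∧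
    (r.2 : ℝ) ≤ r.1 + 3 * l)) := ⟨_, rfl⟩
  rw [hlogx] at hcount
  have hcount' : (R.card : ℝ) ≤ C * (x * (3 * l) / (L / 2) ^ 2) := by
    rw [hR]
    convert hcount using 3
  have hsub : (Icc 1 N).filter (fun n : ℕ => (n : ℝ) + Real.sqrt n -
      κ * (n : ℝ) ^ (1 / 4 : ℝ) * Real.log n ≤ (Fn n : ℝ)) ⊆
      Icc 1 ⌊κ ^ 2 * N⌋₊ ∪ R.biUnion (fun r => Ioc (r.1 * r.2) (r.1 * r.2 + ⌊l⌋₊)) := by
    intro n hn
    obtain ⟨hn1, hn2⟩ := mem_filter.1 hn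
    obtain ⟨hn3, hn4⟩ := mem_Icc.1 hn1
    by_cases hc : n ≤ ⌊κ ^ 2 * N⌋₊
    · exact mem_union_left _ (mem_Icc.2 ⟨hn3, hc⟩)
    · apply mem_union_right
      push Not at hc
      have hc' : κ ^ 2 * N < (n : ℝ) := Nat.lt_of_floor_lt hc
      have hny : y₀ ≤ (n : ℝ) := by
        rw [div_le_iff₀ (by positivity)] at f2
        linarith
      obtain ⟨k1, k2⟩ := hy₀ n hny
      have hnN : (n : ℝ) ≤ N := by exact_mod_cast hn4
      have hn0 : (0 : ℝ) < n := by linarith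
      have hln0 : 0 ≤ κ * (n : ℝ) ^ (1 / 4 : ℝ) * Real.log n := by positivity
      have hlnl : κ * (n : ℝ) ^ (1 / 4 : ℝ) * Real.log n ≤ l := by
        rw [hl, hA, hL]
        apply mul_le_mul
        · exact mul_le_mul_of_nonneg_left (Real.rpow_le_rpow hn0.le hnN (by norm_num)) hκ.le
        · exact Real.log_le_log hn0 hnN
        · linarith
        · positivity
      have hln2 : κ * (n : ℝ) ^ (1 / 4 : ℝ) * Real.log n ≤ Real.sqrt n / 2 := by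
        have h0 : 0 ≤ (n : ℝ) ^ (1 / 4 : ℝ) * Real.log n := by positivity
        have h1 : κ * ((n : ℝ) ^ (1 / 4 : ℝ) * Real.log n) ≤
            1 * ((n : ℝ) ^ (1 / 4 : ℝ) * Real.log n) := mul_le_mul_of_nonneg_right hκ1 h0
        have h2 : 0 ≤ Real.sqrt n := Real.sqrt_nonneg _
        rw [mul_assoc]
        linarith
      obtain ⟨p, q, hp, hq, hpq, hpw, hqp, hpqn, hnl⟩ :=
        ha_pt n _ (by linarith) hln0 hln2 hn2
      have hpx : (p : ℝ) ≤ x := by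
        rw [hx]
        exact hpw.trans (Real.sqrt_le_sqrt hnN)
      rw [mem_biUnion]
      refine ⟨(p, q), ?_, mem_Ioc.2 ⟨hpqn, ?_⟩⟩
      · rw [hR]
        refine mem_filter.2 ⟨mem_product.2 ⟨mem_Icc.2 ⟨hp.one_lt.le, Nat.le_floor ?_⟩,
          mem_Icc.2 ⟨hq.one_lt.le, Nat.le_floor ?_⟩⟩, hp, hq, hpq, hpx, ?_⟩
        · show (p : ℝ) ≤ 2 * x
          linarith
        · show (q : ℝ) ≤ 2 * x
          linarith
        · show (q : ℝ) ≤ p + 3 * l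
          linarith
      · show n ≤ p * q + ⌊l⌋₊
        have h1 : ((n - p * q : ℕ) : ℝ) ≤ l := by
          rw [Nat.cast_sub hpqn.le]
          linarith
        have h2 := Nat.le_floor h1
        omega
  have hfl : ((⌊l⌋₊ : ℕ) : ℝ) ≤ l := Nat.floor_le hl0
  have hfk : ((⌊κ ^ 2 * N⌋₊ : ℕ) : ℝ) ≤ κ ^ 2 * N := Nat.floor_le (by positivity)
  have hc1 := (card_le_card hsub).trans (card_union_le _ _)
  have hc2 : (R.biUnion (fun r => Ioc (r.1 * r.2) (r.1 * r.2 + ⌊l⌋₊))).card ≤ R.card * ⌊l⌋₊ := by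
    refine card_biUnion_le.trans ?_
    calc _ ≤ ∑ r ∈ R, ⌊l⌋₊ := by
          refine sum_le_sum fun p _ => ?_
          rw [Nat.card_Ioc]
          omega
      _ = _ := by simp
  rw [Nat.card_Icc, Nat.add_sub_cancel] at hc1
  have hc3 := hc1.trans (Nat.add_le_add_left hc2 _)
  have hc4 : (((Icc 1 N).filter (fun n : ℕ => (n : ℝ) + Real.sqrt n -
      κ * (n : ℝ) ^ (1 / 4 : ℝ) * Real.log n ≤ (Fn n : ℝ))).card : ℝ) ≤
      ((⌊κ ^ 2 * N⌋₊ : ℕ) : ℝ) + R.card * ((⌊l⌋₊ : ℕ) : ℝ) := by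
    exact_mod_cast hc3
  refine hc4.trans ?_
  have hR0 : (0 : ℝ) ≤ R.card := Nat.cast_nonneg _
  have i1 : (R.card : ℝ) * ((⌊l⌋₊ : ℕ) : ℝ) ≤ (C * (x * (3 * l) / (L / 2) ^ 2)) * l :=
    mul_le_mul hcount' hfl (Nat.cast_nonneg _) (hR0.trans hcount')
  have hLpos : 0 < L := by linarith
  have i2 : (C * (x * (3 * l) / (L / 2) ^ 2)) * l = 12 * C * (κ ^ 2 * N) := by
    rw [hl, ← hx2, ← hA2]
    field_simp
    ring
  rw [i2] at i1
  linarith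

end Pool.Agent.Helper99.AB
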